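import Pool.Agent.Helper27_K9.PRT

/-!
# Squad K9: regular elements and quotients by a central subgroup of exponent `ℓ`
-/

open scoped BigOperators

set_option linter.unusedSectionVars false

noncomputable section

namespace Pool.Agent.PP.K9.H86

open Pool.Agent.PP

variable {ℓ : ℕ} [hℓ : Fact ℓ.Prime] {C H : Type} [Group C] [Finite C] [Group H] [Finite H]
  {π : C →* H}

theorem reg_map {s : C} (hs : Reg ℓ s) : Reg ℓ (π s) :=
  Nat.Coprime.coprime_dvd_left (orderOf_map_dvd π s) hs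

theorem reg_lift (hsur : Function.Surjective π) (hk : ∀ c : C, π c = 1 → c ^ ℓ = 1) {h : H}
    (hh : Reg ℓ h) : ∃ s : C, Reg ℓ s ∧ π s = h := by
  obtain ⟨c, rfl⟩ := hsur h
  obtain ⟨m, hm⟩ : ∃ m, m = orderOf (π c) := ⟨_, rfl⟩
  have hcop : Nat.Coprime m ℓ := by rw [hm]; exact hh
  obtain ⟨k, hk1, hk0⟩ := Nat.chineseRemainder hcop 1 0
  have hk0' : ℓ ∣ k := (Nat.modEq_zero_iff_dvd).1 hk0
  have hcm : (c ^ m) ^ ℓ = 1 := by
    apply hk
    rw [map_pow, hm, pow_orderOf_eq_one]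
  refine ⟨c ^ k, ?_, ?_⟩
  · have h1 : (c ^ k) ^ m = 1 := by
      obtain ⟨j, rfl⟩ := hk0'
      rw [← pow_mul]
      have : ℓ * j * m = m * ℓ * j := by ring
      rw [this, pow_mul, pow_mul, hcm, one_pow]
    exact Nat.Coprime.coprime_dvd_left (orderOf_dvd_of_pow_eq_one h1) hcop
  · rw [map_pow]
    conv_rhs => rw [← pow_one (π c)]
    rw [pow_eq_pow_iff_modEq, ← hm]
    exact hk1

theorem reg_uniq (hk : ∀ c : C, π c = 1 → c ^ ℓ = 1) (hc : ∀ c d : C, π c = 1 → c * d = d * c)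
    {s s' : C} (hs : Reg ℓ s) (hs' : Reg ℓ s') (h : π s = π s') : s = s' := by
  obtain ⟨N, -, hN⟩ := H27.prt ℓ C
  have h1 : π (s⁻¹ * s') = 1 := by rw [map_mul, map_inv, h, inv_mul_cancel]
  have h2 : s' = s * (s⁻¹ * s') := by group
  have h3 : s' ^ N = s := by
    rw [h2]
    exact hN s (s⁻¹ * s') (hc _ s h1).symm hs ⟨1, by rw [pow_one]; exact hk _ h1⟩
  have h4 : s' ^ N = s' := by
    have := hN s' 1 (Commute.one_right s') hs' ⟨0, one_pow _⟩
    rwa [mul_one] at this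
  rw [← h3, h4]

open Classical in
theorem sum_reg [Fintype C] [Fintype H] (hsur : Function.Surjective π)
    (hk : ∀ c : C, π c = 1 → c ^ ℓ = 1) (hc : ∀ c d : C, π c = 1 → c * d = d * c) (f : H → ℂ) :
    ∑ s : C, (if Reg ℓ s then f (π s) else 0) = ∑ h : H, if Reg ℓ h then f h else 0 := by
  rw [← Finset.sum_filter, ← Finset.sum_filter]
  refine Finset.sum_bij (fun s _ => π s) ?_ ?_ ?_ ?_
  · intro s hs
    rw [Finset.mem_filter] at hs ⊢
    exact ⟨Finset.mem_univ _, reg_map hs.2⟩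
  · intro s hs s' hs' h
    rw [Finset.mem_filter] at hs hs'
    exact reg_uniq hk hc hs.2 hs'.2 h
  · intro h hh
    rw [Finset.mem_filter] at hh
    obtain ⟨s, hs, hs2⟩ := reg_lift hsur hk hh.2
    exact ⟨s, Finset.mem_filter.2 ⟨Finset.mem_univ _, hs⟩, hs2⟩
  · intro s _
    rfl

theorem card_eq (hsur : Function.Surjective π) : Nat.card C = Nat.card π.ker * Nat.card H := by
  rw [← Subgroup.card_mul_index π.ker, Subgroup.index_ker, MonoidHom.range_eq_top.2 hsur]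
  rw [Nat.card_congr (Subgroup.topEquiv (G := H)).toEquiv]

end Pool.Agent.PP.K9.H86
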