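import Pool.Agent.Helper57_K9.Stmts
import Pool.Agent.Helper94_PP.LemQ
import Pool.Agent.Helper86_K9.Quot

/-!
# Squad K9, row CE0: blocks with a central defect group of order `ℓ`
-/

open scoped BigOperators

set_option linter.unusedSectionVars false

noncomputable section

namespace Pool.Agent.PP.K9.H86

open Pool.Agent.Helper51_AWC Pool.Agent.Helper79_WRA Pool.Agent.PP Pool.Agent.PP.KF

attribute [local instance] Ideal.Quotient.field

/-- a central element acts by a scalar -/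
theorem cent_scalar {C : Type} [Group C] {θ : C → ℂ} (hθ : θ ∈ Irr C) {z : C}
    (hz : ∀ c, z * c = c * z) {ℓ : ℕ} (hz2 : z ^ ℓ = 1) :
    ∃ k : ℂ, k ^ ℓ = 1 ∧ ∀ (i : ℕ) (c : C), θ (z ^ i * c) = k ^ i * θ c := by
  have hne : θ 1 ≠ 0 := irr_one_ne hθ
  obtain ⟨n, ρ, hρ, rfl⟩ := hθ
  obtain ⟨k, hk⟩ := schur_scalar ρ (ρ z) (by
    intro g
    have h1 : ρ z * ρ g = ρ g * ρ z := by rw [← map_mul, ← map_mul, hz]
    exact h1)
  have h1 : ∀ c, ρ.character (z * c) = k * ρ.character c := by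
    intro c
    show LinearMap.trace ℂ _ (ρ (z * c)) = k * LinearMap.trace ℂ _ (ρ c)
    rw [map_mul, hk, smul_mul_assoc, map_smul, smul_eq_mul]
    rfl
  have h2 : ∀ (i : ℕ) (c : C), ρ.character (z ^ i * c) = k ^ i * ρ.character c := by
    intro i
    induction i with
    | zero => intro c; rw [pow_zero, pow_zero, one_mul, one_mul]
    | succ i ih =>
      intro c
      rw [pow_succ', mul_assoc, h1, ih, pow_succ']
      ring
  refine ⟨k, ?_, h2⟩
  have h3 := h2 ℓ 1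
  rw [hz2, one_mul] at h3
  have h4 : (k ^ ℓ - 1) * ρ.character 1 = 0 := by linear_combination -h3
  rcases mul_eq_zero.1 h4 with h | h
  · exact sub_eq_zero.1 h
  · exact absurd h hne

/-- a character with a trivial central kernel element comes from the quotient -/
theorem irr_defl {A B : Type} [Group A] [Group B] {p : A →* B} (hp : Function.Surjective p) {z : A}
    (hz : ∀ c, z * c = c * z) (hk : ∀ c : A, p c = 1 → ∃ i : ℕ, c = z ^ i) {μ : A → ℂ}
    (hμ : μ ∈ Irr A) (h1 : ∀ c, μ (z * c) = μ c) : ∃ θ ∈ Irr B, μ = fun a => θ (p a) := by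
  have hne : μ 1 ≠ 0 := irr_one_ne hμ
  obtain ⟨n, ρ, hρ, rfl⟩ := hμ
  obtain ⟨k, hk'⟩ := schur_scalar ρ (ρ z) (by
    intro g
    have h1 : ρ z * ρ g = ρ g * ρ z := by rw [← map_mul, ← map_mul, hz]
    exact h1)
  have hk1 : k = 1 := by
    have h2 : ρ.character (z * 1) = k * ρ.character 1 := by
      show LinearMap.trace ℂ _ (ρ (z * 1)) = k * LinearMap.trace ℂ _ (ρ 1)
      rw [map_mul, hk', smul_mul_assoc, map_smul, smul_eq_mul]
      rfl
    rw [h1] at h2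
    have h3 : (k - 1) * ρ.character 1 = 0 := by linear_combination -h2
    rcases mul_eq_zero.1 h3 with h | h
    · exact sub_eq_zero.1 h
    · exact absurd h hne
  have hρz : ρ z = 1 := by
    rw [hk', hk1, one_smul]
    rfl
  have hρe : ∀ x y : A, p x = p y → ρ x = ρ y := by
    intro x y hxy
    obtain ⟨i, hi⟩ := hk (x * y⁻¹) (by rw [map_mul, map_inv, hxy, mul_inv_cancel])
    have h2 : x = z ^ i * y := by rw [← hi]; group
    rw [h2, map_mul, map_pow, hρz, one_pow, one_mul]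
  choose σ hσ using hp
  let ρ' : Representation ℂ B (Fin n → ℂ) :=
    { toFun := fun b => ρ (σ b)
      map_one' := by
        have : ρ (σ 1) = ρ 1 := hρe _ _ (by rw [hσ, map_one])
        rw [this, map_one]
      map_mul' := fun b b' => by
        have : ρ (σ (b * b')) = ρ (σ b * σ b') := hρe _ _ (by rw [hσ, map_mul, hσ, hσ])
        rw [this, map_mul] }
  have hρ' : ∀ a, ρ' (p a) = ρ a := fun a => hρe _ _ (hσ (p a))
  refine ⟨ρ'.character, ⟨n, ρ', ?_, rfl⟩, ?_⟩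
  · have f : Subrepresentation ρ' ≃o Subrepresentation ρ :=
      { toFun := fun S => ⟨S.toSubmodule, fun g v hv => by
          rw [← hρ' g]
          exact S.apply_mem_toSubmodule (p g) hv⟩
        invFun := fun S => ⟨S.toSubmodule, fun h v hv => S.apply_mem_toSubmodule (σ h) hv⟩
        left_inv := fun S => rfl
        right_inv := fun S => rfl
        map_rel_iff' := Iff.rfl }
    exact (OrderIso.isSimpleOrder_iff f).2 hρ
  · funext a
    show LinearMap.trace ℂ _ (ρ a) = LinearMap.trace ℂ _ (ρ' (p a))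
    rw [hρ']

theorem geom {ℓ : ℕ} {ζ : ℂ} (h : ζ ^ ℓ = 1) (h1 : ζ ≠ 1) :
    ∑ i ∈ Finset.range ℓ, ζ ^ i = 0 := by
  have h2 := geom_sum_mul ζ ℓ
  rw [h, sub_self] at h2
  rcases mul_eq_zero.1 h2 with h3 | h3
  · exact h3
  · exact absurd (sub_eq_zero.1 h3) h1

theorem ce0 (wbo : WboStmt) (ada : AdaStmt) (psi : PsiStmt) : Ce0Stmt := by
  intro ℓ _ M _ hM A B _ _ _ _ p hp z hz hzo hker γ hγ κ₀ hκ₀ hrc κ hκ
  classical
  have := Fintype.ofFinite A
  have := Fintype.ofFinite B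
  have := Fintype.ofFinite (Irr A)
  have hzc : ∀ c, z * c = c * z := fun c => (Subgroup.mem_center_iff.1 hz c).symm
  have hzp : z ^ ℓ = 1 := by rw [← hzo, pow_orderOf_eq_one]
  have hℓ0 : 0 < ℓ := (Fact.out : ℓ.Prime).pos
  have hℓC : (ℓ : ℂ) ≠ 0 := by exact_mod_cast hℓ0.ne'
  -- the kernel
  have hkp : ∀ c : A, p c = 1 → ∃ i : ℕ, c = z ^ i := by
    intro c hc
    have h1 := (hker c).1 hc
    obtain ⟨i, hi⟩ := (Submonoid.mem_powers_iff c z).1 ((mem_powers_iff_mem_zpowers).2 h1)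
    exact ⟨i, hi.symm⟩
  have hk1 : ∀ c : A, p c = 1 → c ^ ℓ = 1 := by
    intro c hc
    obtain ⟨i, rfl⟩ := hkp c hc
    rw [← pow_mul, mul_comm, pow_mul, hzp, one_pow]
  have hk2 : ∀ c d : A, p c = 1 → c * d = d * c := by
    intro c d hc
    obtain ⟨i, rfl⟩ := hkp c hc
    exact ((show Commute z d from hzc d).pow_left i).eq
  have hpz : ∀ (i : ℕ) (x : A), p (z ^ i * x) = p x := by
    intro i x
    have : p z = 1 := (hker z).2 (Subgroup.mem_zpowers z)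
    rw [map_mul, map_pow, this, one_pow, one_mul]
  -- the characters
  obtain ⟨hpsi1, hpsi2⟩ := psi M A B p hp γ hγ.1
  rw [hκ₀] at hpsi1
  have hκ₀B : κ₀ ∈ Irr B ∧ (fun a => κ₀ (p a)) ∈ IrrE M γ := by
    have : κ₀ ∈ ({κ₀} : Set (B → ℂ)) := rfl
    rw [hpsi1] at this
    exact this
  have hκ₀A : (fun a => κ₀ (p a)) ∈ Irr A := hκ₀B.2.1
  -- the scalars
  have hsc : ∀ μ : A → ℂ, ∃ k : ℂ, μ ∈ Irr A →
      k ^ ℓ = 1 ∧ ∀ (i : ℕ) (c : A), μ (z ^ i * c) = k ^ i * μ c := by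
    intro μ
    by_cases hμ : μ ∈ Irr A
    · obtain ⟨k, h1, h2⟩ := cent_scalar hμ hzc hzp
      exact ⟨k, fun _ => ⟨h1, h2⟩⟩
    · exact ⟨0, fun h => absurd h hμ⟩
  choose lam hlam using hsc
  -- the finite set of the characters
  have hfin : (IrrE M γ).Finite := Set.Finite.subset (Set.toFinite (Irr A)) fun χ h => h.1
  obtain ⟨Γ, hΓ⟩ : ∃ Γ : Finset (A → ℂ), Γ = hfin.toFinset := ⟨_, rfl⟩
  have hΓm : ∀ μ, μ ∈ Γ ↔ μ ∈ IrrE M γ := by
    intro μ
    rw [hΓ, Set.Finite.mem_toFinset]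
  have hsum : ∀ f : (A → ℂ) → ℂ, ∑ᶠ χ ∈ IrrE M γ, f χ = ∑ χ ∈ Γ, f χ := by
    intro f
    rw [hΓ]
    exact finsum_mem_eq_finite_toFinset_sum f hfin
  obtain ⟨N, -, hN⟩ := H27.prt ℓ A
  have hpowN : ∀ (i : ℕ) (s : A), Reg ℓ s → (z ^ i * s) ^ N = s := by
    intro i s hs
    have h1 : Commute s (z ^ i) := ((show Commute z s from hzc s).pow_left i).symm
    rw [← h1.eq]
    refine hN s (z ^ i) h1 hs ⟨1, ?_⟩
    rw [pow_one, ← pow_mul, mul_comm, pow_mul, hzp, one_pow]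
  -- singular elements
  have hsing : ∀ (i : ℕ) (s : A), Reg ℓ s → 0 < i → i < ℓ → ¬ Reg ℓ (z ^ i * s) := by
    intro i s hs hi hi2 hreg
    have h1 := hpowN i s hs
    have h2 := hpowN 0 (z ^ i * s) hreg
    rw [pow_zero, one_mul] at h2
    rw [h2] at h1
    have h3 : z ^ i = 1 := by
      have : z ^ i * s = 1 * s := by rw [h1, one_mul]
      exact mul_right_cancel this
    have h4 := orderOf_dvd_of_pow_eq_one h3
    rw [hzo] at h4
    exact absurd (Nat.le_of_dvd hi h4) (not_le.2 hi2)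
  -- the sums over the characters with a given scalar
  have hE0 : ∀ l : ℂ, l ^ ℓ = 1 → ∀ s s' : A, Reg ℓ s → Reg ℓ s' →
      (ℓ : ℂ) * ∑ μ ∈ Γ.filter (fun μ => lam μ = l), μ s⁻¹ * μ s' = ∑ μ ∈ Γ, μ s⁻¹ * μ s' := by
    intro l hl s s' hs hs'
    have hl0 : l ≠ 0 := by
      rintro rfl
      rw [zero_pow hℓ0.ne'] at hl
      exact zero_ne_one hl
    have h1 : ∑ i ∈ Finset.range ℓ, (l⁻¹) ^ i * ∑ μ ∈ Γ, μ s⁻¹ * μ (z ^ i * s') =
        ∑ μ ∈ Γ, μ s⁻¹ * μ s' := by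
      rw [Finset.sum_eq_single_of_mem 0 (Finset.mem_range.2 hℓ0)]
      · simp only [pow_zero, one_mul]
      · intro i hi hi0
        rw [← hsum, wbo ℓ M hM A γ hγ s (z ^ i * s') hs
          (hsing i s' hs' (Nat.pos_of_ne_zero hi0) (Finset.mem_range.1 hi)), mul_zero]
    rw [← h1]
    calc (ℓ : ℂ) * ∑ μ ∈ Γ.filter (fun μ => lam μ = l), μ s⁻¹ * μ s'
        = ∑ μ ∈ Γ, (μ s⁻¹ * μ s') * ∑ i ∈ Finset.range ℓ, (l⁻¹ * lam μ) ^ i := by
          rw [Finset.mul_sum, Finset.sum_filter]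
          refine Finset.sum_congr rfl fun μ hμ => ?_
          have hμ' := (hlam μ ((hΓm μ).1 hμ).1).1
          by_cases h : lam μ = l
          · rw [if_pos h, h, inv_mul_cancel₀ hl0]
            simp
            ring
          · rw [if_neg h, geom, mul_zero]
            · rw [mul_pow, inv_pow, hl, hμ', inv_one, one_mul]
            · intro h2
              apply h
              field_simp at h2
              exact h2
      _ = ∑ i ∈ Finset.range ℓ, (l⁻¹) ^ i * ∑ μ ∈ Γ, μ s⁻¹ * μ (z ^ i * s') := by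
          simp_rw [Finset.mul_sum]
          rw [Finset.sum_comm]
          refine Finset.sum_congr rfl fun i _ => Finset.sum_congr rfl fun μ hμ => ?_
          rw [(hlam μ ((hΓm μ).1 hμ).1).2, mul_pow]
          ring
  -- the characters with the scalar one
  have hone : Γ.filter (fun μ => lam μ = 1) = {fun a => κ₀ (p a)} := by
    ext μ
    rw [Finset.mem_filter, Finset.mem_singleton, hΓm]
    constructor
    · rintro ⟨hμ, hμ1⟩
      -- `μ` is inflated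
      have hμA := hμ.1
      obtain ⟨θ, hθ, hθμ⟩ := irr_defl hp hzc hkp hμA (fun c => by
        have := (hlam μ hμA).2 1 c
        rwa [pow_one, pow_one, hμ1, one_mul] at this)
      have h1 : θ ∈ ({κ₀} : Set (B → ℂ)) := by
        rw [hpsi1]
        exact ⟨hθ, by rw [← hθμ]; exact hμ⟩
      rw [hθμ, Set.mem_singleton_iff.1 h1]
    · rintro rfl
      refine ⟨hκ₀B.2, ?_⟩
      have h1 := (hlam _ hκ₀A).2 1 1
      rw [pow_one, pow_one] at h1
      have h2 : κ₀ (p (z * 1)) = κ₀ (p 1) := by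
        have := hpz 1 1
        rw [pow_one] at this
        rw [this]
      have h3 : κ₀ (p 1) ≠ 0 := irr_one_ne hκ₀A
      have h4 : (lam (fun a => κ₀ (p a)) - 1) * κ₀ (p 1) = 0 := by
        rw [h2] at h1
        linear_combination -h1
      rcases mul_eq_zero.1 h4 with h | h
      · exact sub_eq_zero.1 h
      · exact absurd h h3
  have hE : ∀ l : ℂ, l ^ ℓ = 1 → ∀ s s' : A, Reg ℓ s → Reg ℓ s' →
      ∑ μ ∈ Γ.filter (fun μ => lam μ = l), μ s⁻¹ * μ s' = κ₀ (p s⁻¹) * κ₀ (p s') := by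
    intro l hl s s' hs hs'
    have h1 := hE0 l hl s s' hs hs'
    have h2 := hE0 1 (one_pow _) s s' hs hs'
    rw [← h2, hone, Finset.sum_singleton] at h1
    exact mul_left_cancel₀ hℓC h1
  -- real numbers
  obtain ⟨d, hd, hκd⟩ := irr_one hκ.1
  obtain ⟨d₀, hd₀, hκd₀'⟩ := irr_one hκ₀A
  have hκd₀ : κ₀ (p 1) = d₀ := hκd₀'
  obtain ⟨l, hl⟩ : ∃ l, l = lam κ := ⟨_, rfl⟩
  have hll : l ^ ℓ = 1 := by rw [hl]; exact (hlam κ hκ.1).1
  have hκl : κ ∈ Γ.filter (fun μ => lam μ = l) := by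
    rw [Finset.mem_filter, hΓm]
    exact ⟨hκ, hl.symm⟩
  have hreg1 : Reg ℓ (1 : A) := by
    unfold Reg
    rw [orderOf_one]
    exact Nat.coprime_one_left ℓ
  have hsq : ∀ μ ∈ Irr A, ∀ x : A, μ x * μ x⁻¹ = ((‖μ x‖ ^ 2 : ℝ) : ℂ) := by
    intro μ hμ x
    rw [← H94.irr_star hμ, Complex.mul_conj, Complex.normSq_eq_norm_sq]
  -- proportionality
  have hprop : ∀ s : A, Reg ℓ s → κ₀ (p 1) * κ s = κ₀ (p s) * κ 1 := by
    intro s hs
    have hterm : ∀ μ ∈ Γ.filter (fun μ => lam μ = l),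
        ((‖κ₀ (p 1) * μ s - κ₀ (p s) * μ 1‖ ^ 2 : ℝ) : ℂ) =
        κ₀ (p 1) * κ₀ (p 1) * (μ s⁻¹ * μ s) - κ₀ (p 1) * κ₀ (p s⁻¹) * (μ 1⁻¹ * μ s) -
          κ₀ (p s) * κ₀ (p 1) * (μ s⁻¹ * μ 1) + κ₀ (p s) * κ₀ (p s⁻¹) * (μ 1⁻¹ * μ 1) := by
      intro μ hμ
      have hμA : μ ∈ Irr A := ((hΓm μ).1 (Finset.mem_filter.1 hμ).1).1
      rw [← Complex.normSq_eq_norm_sq, ← Complex.mul_conj, map_sub, map_mul, map_mul,
        H94.irr_star hμA, H94.irr_star hμA]
      have e1 : starRingEnd ℂ (κ₀ (p 1)) = κ₀ (p 1⁻¹) := H94.irr_star hκ₀A 1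
      have e2 : starRingEnd ℂ (κ₀ (p s)) = κ₀ (p s⁻¹) := H94.irr_star hκ₀A s
      rw [e1, e2]
      simp only [inv_one]
      ring
    have hzero : ((∑ μ ∈ Γ.filter (fun μ => lam μ = l),
        ‖κ₀ (p 1) * μ s - κ₀ (p s) * μ 1‖ ^ 2 : ℝ) : ℂ) = 0 := by
      push_cast
      have h0 : ∀ μ ∈ Γ.filter (fun μ => lam μ = l),
          ((‖κ₀ (p 1) * μ s - κ₀ (p s) * μ 1‖ : ℝ) : ℂ) ^ 2 =
          κ₀ (p 1) * κ₀ (p 1) * (μ s⁻¹ * μ s) - κ₀ (p 1) * κ₀ (p s⁻¹) * (μ 1⁻¹ * μ s) -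
          κ₀ (p s) * κ₀ (p 1) * (μ s⁻¹ * μ 1) + κ₀ (p s) * κ₀ (p s⁻¹) * (μ 1⁻¹ * μ 1) := by
        intro μ hμ
        rw [← hterm μ hμ]
        push_cast
        rfl
      rw [Finset.sum_congr rfl h0, Finset.sum_add_distrib, Finset.sum_sub_distrib,
        Finset.sum_sub_distrib, ← Finset.mul_sum, ← Finset.mul_sum, ← Finset.mul_sum,
        ← Finset.mul_sum, hE l hll s s hs hs, hE l hll 1 s hreg1 hs, hE l hll s 1 hs hreg1,
        hE l hll 1 1 hreg1 hreg1, inv_one]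
      ring
    have hzero' : ∑ μ ∈ Γ.filter (fun μ => lam μ = l),
        ‖κ₀ (p 1) * μ s - κ₀ (p s) * μ 1‖ ^ 2 = 0 := by exact_mod_cast hzero
    have h2 := (Finset.sum_eq_zero_iff_of_nonneg (fun μ _ => by positivity)).1 hzero' κ hκl
    have h3 : ‖κ₀ (p 1) * κ s - κ₀ (p s) * κ 1‖ = 0 := by
      exact pow_eq_zero_iff (two_ne_zero) |>.1 h2
    exact sub_eq_zero.1 (norm_eq_zero.1 h3)
  -- every element over a regular element
  have hdec : ∀ x : A, Reg ℓ (p x) → ∃ (i : ℕ) (s : A), Reg ℓ s ∧ x = z ^ i * s := by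
    intro x hx
    obtain ⟨s, hs, hsx⟩ := reg_lift (π := p) hp hk1 hx
    obtain ⟨i, hi⟩ := hkp (x * s⁻¹) (by rw [map_mul, map_inv, hsx, mul_inv_cancel])
    exact ⟨i, s, hs, by rw [← hi]; group⟩
  -- the ratio of the degrees is an integer
  have hκ₀ZI : (fun a => κ₀ (p a)) ∈ ZI A := AddSubgroup.subset_closure hκ₀A
  have hκZI : κ ∈ ZI A := AddSubgroup.subset_closure hκ.1
  obtain ⟨m, hm⟩ := ada A N κ hκZI (fun a => κ₀ (p a)) hκ₀ZI
  have hcardA : (Fintype.card A : ℂ) ≠ 0 := by exact_mod_cast Fintype.card_ne_zero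
  have hm2 : κ₀ (p 1) * m = κ 1 := by
    rw [← hm]
    unfold ipn
    rw [finsum_eq_sum_of_fintype, Nat.card_eq_fintype_card]
    have h1 : ∀ x : A, κ₀ (p 1) * (κ (x ^ N) * starRingEnd ℂ (κ₀ (p x))) =
        κ 1 * (κ₀ (p x) * κ₀ (p x⁻¹)) := by
      intro x
      have e1 : starRingEnd ℂ (κ₀ (p x)) = κ₀ (p x⁻¹) := H94.irr_star hκ₀A x
      rw [e1]
      by_cases hx : Reg ℓ (p x)
      · obtain ⟨i, s, hs, hxs⟩ := hdec x hx
        have h2 : κ (x ^ N) = κ s := by rw [hxs, hpowN i s hs]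
        have h3 : p x = p s := by rw [hxs, hpz]
        rw [h2, h3, ← mul_assoc, hprop s hs]
        ring
      · have h2 : κ₀ (p x) = 0 := hrc.sg _ hx
        have h3 : κ₀ (p x⁻¹) = 0 := by rw [← e1, h2, map_zero]
        rw [h3, mul_zero, mul_zero, mul_zero, mul_zero]
    have h2 : κ₀ (p 1) * ((Fintype.card A : ℂ)⁻¹ *
        ∑ x : A, κ (x ^ N) * starRingEnd ℂ (κ₀ (p x))) =
        (Fintype.card A : ℂ)⁻¹ * (κ 1 * ∑ x : A, κ₀ (p x) * κ₀ (p x⁻¹)) := by
      rw [Finset.mul_sum (s := Finset.univ) (a := κ 1), ← Finset.sum_congr rfl fun x _ => h1 x,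
        ← Finset.mul_sum]
      ring
    rw [h2]
    have h3 : ∑ x : A, κ₀ (p x) * κ₀ (p x⁻¹) = Fintype.card A := irr_orth_self hκ₀A
    rw [h3]
    field_simp
  -- the degrees are equal
  have hdeg : κ 1 = κ₀ (p 1) := by
    have h1 := hE l hll 1 1 hreg1 hreg1
    rw [inv_one] at h1
    have h2 : ∀ μ ∈ Γ.filter (fun μ => lam μ = l), ∃ a : ℕ, μ 1 = a := by
      intro μ hμ
      obtain ⟨a, -, ha⟩ := irr_one ((hΓm μ).1 (Finset.mem_filter.1 hμ).1).1
      exact ⟨a, ha⟩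
    have h3 : ∃ r : ℕ, ∑ μ ∈ (Γ.filter (fun μ => lam μ = l)).erase κ, μ 1 * μ 1 = r := by
      have h4 : ∀ S : Finset (A → ℂ), (∀ μ ∈ S, ∃ a : ℕ, μ 1 = a) →
          ∃ r : ℕ, ∑ μ ∈ S, μ 1 * μ 1 = r := by
        intro S
        induction S using Finset.induction_on with
        | empty => exact fun _ => ⟨0, by simp⟩
        | insert μ S hμ ih =>
          intro h
          obtain ⟨a, ha⟩ := h μ (Finset.mem_insert_self _ _)
          obtain ⟨r, hr⟩ := ih fun ν hν => h ν (Finset.mem_insert_of_mem hν)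
          refine ⟨a * a + r, ?_⟩
          rw [Finset.sum_insert hμ, ha, hr]
          push_cast
          ring
      exact h4 _ fun μ hμ => h2 μ (Finset.mem_of_mem_erase hμ)
    obtain ⟨r, hr⟩ := h3
    rw [← Finset.add_sum_erase _ _ hκl, hr, hκd, hκd₀] at h1
    have h5 : d * d + r = d₀ * d₀ := by exact_mod_cast h1
    rw [hκd₀, hκd] at hm2
    have h6 : (d₀ : ℤ) * m = d := by exact_mod_cast hm2
    have hd0Z : (0 : ℤ) < d₀ := by exact_mod_cast hd₀
    have hdZ : (0 : ℤ) < d := by exact_mod_cast hd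
    have hmpos : 0 < m := by
      by_contra h
      have : (d₀ : ℤ) * m ≤ 0 := mul_nonpos_of_nonneg_of_nonpos hd0Z.le (not_lt.1 h)
      omega
    have h7 : (d : ℤ) * d ≤ d₀ * d₀ := by
      have : ((d * d + r : ℕ) : ℤ) = ((d₀ * d₀ : ℕ) : ℤ) := by rw [h5]
      push_cast at this
      have hr0 : (0 : ℤ) ≤ r := by positivity
      linarith
    have h8 : (d : ℤ) ≤ d₀ := by
      by_contra h
      push Not at h
      nlinarith
    have h9 : m = 1 := by
      have : m ≤ 1 := by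
        by_contra h
        push Not at h
        have : (d₀ : ℤ) * 2 ≤ d₀ * m := mul_le_mul_of_nonneg_left (by omega) hd0Z.le
        omega
      omega
    rw [h9, mul_one] at h6
    rw [hκd, hκd₀]
    exact_mod_cast h6.symm
  have hreg : ∀ s : A, Reg ℓ s → κ s = κ₀ (p s) := by
    intro s hs
    have h1 := hprop s hs
    rw [hdeg, mul_comm] at h1
    exact mul_right_cancel₀ (irr_one_ne hκ₀A) h1
  have hform : ∀ (i : ℕ) (s : A), Reg ℓ s → κ (z ^ i * s) = l ^ i * κ₀ (p s) := by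
    intro i s hs
    rw [(hlam κ hκ.1).2, ← hl, hreg s hs]
  refine ⟨l, hll, hform, fun x hx => ?_⟩
  -- the norms
  have hl1 : ‖l‖ = 1 := by
    have h1 : ‖l‖ ^ ℓ = 1 := by rw [← norm_pow, hll, norm_one]
    exact (pow_eq_one_iff_of_nonneg (norm_nonneg _) hℓ0.ne').1 h1
  have hn1 : ∑ x : A, ‖κ x‖ ^ 2 = ∑ x : A, ‖κ₀ (p x)‖ ^ 2 := by
    have h1 := irr_orth_self hκ.1
    have h2 : ∑ x : A, κ₀ (p x) * κ₀ (p x⁻¹) = Fintype.card A := irr_orth_self hκ₀A
    rw [← h2, Finset.sum_congr rfl fun x _ => hsq κ hκ.1 x] at h1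
    have h3 : ∀ x : A, κ₀ (p x) * κ₀ (p x⁻¹) = ((‖κ₀ (p x)‖ ^ 2 : ℝ) : ℂ) := hsq _ hκ₀A
    rw [Finset.sum_congr rfl fun x _ => h3 x] at h1
    exact_mod_cast h1
  have hle : ∀ x : A, ‖κ₀ (p x)‖ ^ 2 ≤ ‖κ x‖ ^ 2 := by
    intro x
    by_cases hx : Reg ℓ (p x)
    · obtain ⟨i, s, hs, hxs⟩ := hdec x hx
      rw [hxs, hform i s hs, hpz, norm_mul, norm_pow, hl1, one_pow, one_mul]
    · rw [hrc.sg _ hx, norm_zero, zero_pow two_ne_zero]
      positivity
  have heq := (Finset.sum_eq_sum_iff_of_le (fun x _ => hle x)).1 hn1.symm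
  have h1 := heq x (Finset.mem_univ x)
  have h2 : ¬ Reg ℓ (p x) := by
    intro h
    obtain ⟨i, s, hs, hxs⟩ := hdec x h
    exact hx i s hs hxs
  rw [hrc.sg _ h2, norm_zero] at h1
  have h3 : ‖κ x‖ = 0 := by
    have : ‖κ x‖ ^ 2 = 0 := by rw [← h1]; norm_num
    exact pow_eq_zero_iff (two_ne_zero) |>.1 this
  exact norm_eq_zero.1 h3

end Pool.Agent.PP.K9.H86
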