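import Pool.Agent.Helper57_K9.Stmts
import Pool.Agent.Helper77_KF.Trc
import Pool.Agent.Helper94_PP.LemQ
import Pool.Agent.Helper86_K9.Quot

/-!
# Squad K9, row SEC: orthogonality relations for the `A_χ`
-/

open scoped BigOperators

set_option linter.unusedSectionVars false

noncomputable section

namespace Pool.Agent.PP.K9.H86

open Pool.Agent.Helper51_AWC Pool.Agent.Helper79_WRA Pool.Agent.PP Pool.Agent.PP.KF

variable {ℓ : ℕ} [hℓ : Fact ℓ.Prime] {G H : Type} [Group G] [Finite G] [Group H] [Finite H]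
  {u : G} {π : Cu u →* H}

open Classical in
theorem av_eq [Fintype (Cu u)] (w : G) (p : H → ℂ) (χ : G → ℂ) :
    Av ℓ π w p χ = (Nat.card H : ℂ)⁻¹ *
      ∑ s : Cu u, χ (w * s) * (if Reg ℓ s then starRingEnd ℂ (p (π s)) else 0) := by
  unfold Av
  congr 1
  rw [finsum_eq_sum_of_fintype]
  refine Finset.sum_congr rfl fun s _ => ?_
  by_cases hs : Reg ℓ s
  · rw [if_pos hs, finsum_eq_single _ hs (fun h hh => absurd rfl hh)]
  · rw [if_neg hs, mul_zero]
    have : IsEmpty (Reg ℓ s) := ⟨hs⟩
    exact finsum_of_isEmpty _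

open Classical in
theorem av_star [Fintype (Cu u)] (w : G) (p : H → ℂ) {χ : G → ℂ} (hχ : χ ∈ Irr G) :
    starRingEnd ℂ (Av ℓ π w p χ) = (Nat.card H : ℂ)⁻¹ *
      ∑ s : Cu u, χ (w * s)⁻¹ * (if Reg ℓ s then p (π s) else 0) := by
  rw [av_eq, map_mul, map_inv₀, Complex.conj_natCast, map_sum]
  congr 1
  refine Finset.sum_congr rfl fun s _ => ?_
  rw [map_mul, H94.irr_star hχ]
  congr 1
  by_cases hs : Reg ℓ s
  · rw [if_pos hs, if_pos hs, Complex.conj_conj]
  · rw [if_neg hs, if_neg hs, map_zero]

open Classical in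
/-- the orthogonality relation as a sum over the group -/
theorem pair [Fintype G] [Fintype (Cu u)] [Fintype (Irr G)] (w w' : G) (a b : Cu u → ℂ) :
    ∑ χ : Irr G, (∑ s : Cu u, (χ : G → ℂ) (w * s) * a s) *
      (∑ s' : Cu u, (χ : G → ℂ) (w' * s')⁻¹ * b s') =
    ∑ x : G, ∑ s : Cu u, ∑ s' : Cu u,
      if x⁻¹ * (w * s) * x = w' * s' then a s * b s' else 0 := by
  calc ∑ χ : Irr G, (∑ s : Cu u, (χ : G → ℂ) (w * s) * a s) *
      (∑ s' : Cu u, (χ : G → ℂ) (w' * s')⁻¹ * b s')
      = ∑ χ : Irr G, ∑ s : Cu u, ∑ s' : Cu u,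
          (a s * b s') * ((χ : G → ℂ) (w * s) * (χ : G → ℂ) (w' * s')⁻¹) := by
        refine Finset.sum_congr rfl fun χ _ => ?_
        rw [Finset.sum_mul_sum]
        exact Finset.sum_congr rfl fun s _ => Finset.sum_congr rfl fun s' _ => by ring
    _ = ∑ s : Cu u, ∑ s' : Cu u, (a s * b s') *
          ∑ χ : Irr G, ((χ : G → ℂ) (w * s) * (χ : G → ℂ) (w' * s')⁻¹) := by
        rw [Finset.sum_comm]
        refine Finset.sum_congr rfl fun s _ => ?_
        rw [Finset.sum_comm]
        exact Finset.sum_congr rfl fun s' _ => by rw [Finset.mul_sum]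
    _ = ∑ s : Cu u, ∑ s' : Cu u, ∑ x : G,
          if x⁻¹ * (w * s) * x = w' * s' then a s * b s' else 0 := by
        refine Finset.sum_congr rfl fun s _ => Finset.sum_congr rfl fun s' _ => ?_
        rw [col_sum, Finset.mul_sum]
        refine Finset.sum_congr rfl fun x _ => ?_
        have h1 : x⁻¹ * (w * (s : G))⁻¹ * x = (w' * (s' : G))⁻¹ ↔
            x⁻¹ * (w * (s : G)) * x = w' * s' := by
          rw [← inv_inj, inv_inv]
          have : (x⁻¹ * (w * (s : G))⁻¹ * x)⁻¹ = x⁻¹ * (w * (s : G)) * x := by group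
          rw [this]
        by_cases h : x⁻¹ * (w * (s : G)) * x = w' * s'
        · rw [if_pos h, if_pos (h1.2 h), mul_one]
        · rw [if_neg h, if_neg (fun h' => h (h1.1 h')), mul_zero]
    _ = ∑ s : Cu u, ∑ x : G, ∑ s' : Cu u,
          if x⁻¹ * (w * s) * x = w' * s' then a s * b s' else 0 :=
        Finset.sum_congr rfl fun s _ => Finset.sum_comm
    _ = _ := Finset.sum_comm

theorem mem_pow {w : G} (hw : w ∈ Subgroup.zpowers u) (hu : orderOf u = ℓ) : w ^ ℓ = 1 := by
  obtain ⟨k, rfl⟩ := hw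
  rw [← zpow_natCast, ← zpow_mul, mul_comm, zpow_mul, zpow_natCast, ← hu, pow_orderOf_eq_one,
    one_zpow]

theorem comm_pow {w : G} (hw : w ∈ Subgroup.zpowers u) (s : Cu u) : Commute (s : G) w := by
  obtain ⟨k, rfl⟩ := hw
  have h1 : (s : G) * u = u * s := Subgroup.mem_centralizer_singleton_iff.1 s.2
  exact (show Commute (s : G) u from h1).zpow_right k

theorem gen_pow {w : G} (hw : w ∈ Subgroup.zpowers u) (hw1 : w ≠ 1) (hu : orderOf u = ℓ) :
    ∃ k : ℤ, u = w ^ k := by
  have h1 : orderOf w = ℓ := orderOf_eq_prime (mem_pow hw hu) hw1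
  have h2 : Subgroup.zpowers w ≤ Subgroup.zpowers u := by
    rw [Subgroup.zpowers_le]
    exact hw
  have h3 : Subgroup.zpowers w = Subgroup.zpowers u := by
    apply Subgroup.eq_of_le_of_card_ge h2
    rw [Nat.card_zpowers, Nat.card_zpowers, h1, hu]
  have h4 : u ∈ Subgroup.zpowers w := by
    rw [h3]
    exact Subgroup.mem_zpowers u
  obtain ⟨k, hk⟩ := h4
  exact ⟨k, hk.symm⟩

theorem reg_coe {s : Cu u} (hs : Reg ℓ s) : Reg ℓ (s : G) := by
  unfold Reg at hs ⊢
  rwa [Subgroup.orderOf_coe]

/-- the parts of conjugate elements are conjugate -/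
theorem parts_conj (hu : orderOf u = ℓ) {w w' : G} (hw : w ∈ Subgroup.zpowers u)
    (hw' : w' ∈ Subgroup.zpowers u) {s s' : Cu u} (hs : Reg ℓ s) (hs' : Reg ℓ s') {x : G}
    (h : x⁻¹ * (w * s) * x = w' * s') : x⁻¹ * w * x = w' ∧ x⁻¹ * s * x = s' := by
  obtain ⟨N, -, hN⟩ := H27.prt ℓ G
  have key : ∀ (v : G) (_ : v ∈ Subgroup.zpowers u) (t : Cu u) (_ : Reg ℓ t), (v * t) ^ N = t := by
    intro v hv t ht
    have h1 := comm_pow hv t
    rw [← h1.eq]
    exact hN t v h1 (reg_coe ht) ⟨1, by rw [pow_one]; exact mem_pow hv hu⟩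
  have h1 : x⁻¹ * s * x = s' := by
    rw [← key w' hw' s' hs', ← h]
    have h2 : x⁻¹ * (w * s) * x = x⁻¹ * (w * s) * (x⁻¹)⁻¹ := by group
    rw [h2, conj_pow, key w hw s hs]
    group
  refine ⟨?_, h1⟩
  have h2 : x⁻¹ * (w * s) * x = (x⁻¹ * w * x) * (x⁻¹ * s * x) := by group
  rw [h2, h1] at h
  exact mul_right_cancel h

theorem qt_pow (hQ : Qt ℓ u π) (c : Cu u) (h : π c = 1) : c ^ ℓ = 1 := by
  have h1 := (hQ.ker c).1 h
  apply Subtype.ext
  exact mem_pow h1 hQ.ord

theorem qt_comm (hQ : Qt ℓ u π) (c d : Cu u) (h : π c = 1) : c * d = d * c := by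
  have h1 := (hQ.ker c).1 h
  apply Subtype.ext
  exact (comm_pow h1 d).eq.symm

theorem qt_card (hQ : Qt ℓ u π) : Nat.card (Cu u) = ℓ * Nat.card H := by
  rw [card_eq hQ.sur]
  congr 1
  have h1 : Nat.card π.ker = Nat.card (Subgroup.zpowers u) := by
    refine Nat.card_congr
      { toFun := fun k => ⟨((k : Cu u) : G), (hQ.ker _).1 k.2⟩
        invFun := fun g => ⟨⟨g, ?_⟩, (hQ.ker _).2 g.2⟩
        left_inv := fun k => rfl
        right_inv := fun g => rfl }
    rw [Subgroup.mem_centralizer_singleton_iff]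
    obtain ⟨k, hk⟩ := g.2
    rw [← hk]
    exact ((Commute.refl u).zpow_left k).eq
  rw [h1, Nat.card_zpowers, hQ.ord]

theorem finsum_irr [Fintype (Irr G)] (f : (G → ℂ) → ℂ) :
    ∑ᶠ χ ∈ Irr G, f χ = ∑ χ : Irr G, f χ := by
  rw [← finsum_set_coe_eq_finsum_mem (Irr G)]
  exact finsum_eq_sum_of_fintype _

theorem sec : SecStmt := by
  intro ℓ _ G H _ _ _ _ u π hQ p q hp hq w hw hw1
  classical
  have := Fintype.ofFinite G
  have := Fintype.ofFinite H
  have := Fintype.ofFinite (Cu u)
  have := Fintype.ofFinite (Irr G)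
  -- the general form
  have gen : ∀ w' ∈ Subgroup.zpowers u,
      ∑ᶠ χ ∈ Irr G, Av ℓ π w p χ * starRingEnd ℂ (Av ℓ π w' q χ) =
      ((Nat.card H : ℂ)⁻¹ * (Nat.card H : ℂ)⁻¹) * ∑ x : G, ∑ s : Cu u, ∑ s' : Cu u,
        if x⁻¹ * (w * s) * x = w' * s' then
          (if Reg ℓ s then starRingEnd ℂ (p (π s)) else 0) * (if Reg ℓ s' then q (π s') else 0)
        else 0 := by
    intro w' _
    rw [finsum_irr, ← pair, Finset.mul_sum]
    refine Finset.sum_congr rfl fun χ _ => ?_
    rw [av_eq, av_star w' q χ.2]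
    ring
  refine ⟨?_, ?_, ?_⟩
  · rw [gen w hw]
    -- the inner sums
    have h1 : ∀ x : G, ∑ s : Cu u, ∑ s' : Cu u, (if x⁻¹ * (w * s) * x = w * s' then
          (if Reg ℓ s then starRingEnd ℂ (p (π s)) else 0) * (if Reg ℓ s' then q (π s') else 0)
        else 0) = if x ∈ Cu u then
          ∑ s : Cu u, (if Reg ℓ s then starRingEnd ℂ (p (π s)) * q (π s) else 0) else 0 := by
      intro x
      by_cases hx : x ∈ Cu u
      · rw [if_pos hx]
        refine Finset.sum_congr rfl fun s _ => ?_
        by_cases hs : Reg ℓ s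
        · obtain ⟨t, ht⟩ : ∃ t : Cu u, t = ⟨x, hx⟩⁻¹ * s * ⟨x, hx⟩ := ⟨_, rfl⟩
          have hxw : x⁻¹ * w * x = w := by
            have := (comm_pow hw ⟨x, hx⟩).eq
            change x * w = w * x at this
            rw [mul_assoc, ← this]
            group
          rw [Finset.sum_eq_single t]
          · have e1 : x⁻¹ * (w * s) * x = w * t := by
              have : x⁻¹ * (w * s) * x = (x⁻¹ * w * x) * (x⁻¹ * s * x) := by group
              rw [this, hxw, ht]
              rfl
            have e2 : Reg ℓ t := by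
              have e3 : t = (⟨x, hx⟩ : Cu u)⁻¹ * s * ((⟨x, hx⟩ : Cu u)⁻¹)⁻¹ := by
                rw [ht, inv_inv]
              unfold Reg at hs ⊢
              have e4 : orderOf t = orderOf s := by
                rw [e3, ← MulAut.conj_apply]
                exact MulEquiv.orderOf_eq _ _
              rw [e4]
              exact hs
            have e5 : q (π t) = q (π s) := by
              have e6 : π t = (π ⟨x, hx⟩)⁻¹ * π s * ((π ⟨x, hx⟩)⁻¹)⁻¹ := by
                rw [ht, map_mul, map_mul, map_inv, inv_inv]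
              rw [e6, hq.cl]
            rw [if_pos e1, if_pos hs, if_pos e2, if_pos hs, e5]
          · intro s' _ hne
            by_cases h : x⁻¹ * (w * s) * x = w * s'
            · rw [if_pos h]
              by_cases hs' : Reg ℓ s'
              · exfalso
                apply hne
                apply Subtype.ext
                rw [ht]
                exact (parts_conj hQ.ord hw hw hs hs' h).2.symm
              · rw [if_neg hs', mul_zero]
            · rw [if_neg h]
          · intro h
            exact absurd (Finset.mem_univ _) h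
        · have e0 : (if Reg ℓ s then starRingEnd ℂ (p (π s)) * q (π s) else 0) = 0 := if_neg hs
          rw [e0]
          refine Finset.sum_eq_zero fun s' _ => ?_
          rw [if_neg hs, zero_mul, ite_self]
      · rw [if_neg hx]
        refine Finset.sum_eq_zero fun s _ => Finset.sum_eq_zero fun s' _ => ?_
        by_cases h : x⁻¹ * (w * s) * x = w * s'
        · rw [if_pos h]
          by_cases hs : Reg ℓ s
          · by_cases hs' : Reg ℓ s'
            · exfalso
              apply hx
              have h2 := (parts_conj hQ.ord hw hw hs hs' h).1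
              have h3 : Commute x w := by
                have : w * x = x * w := by
                  calc w * x = x * (x⁻¹ * w * x) := by group
                    _ = x * w := by rw [h2]
                exact this.symm
              obtain ⟨k, hk⟩ := gen_pow hw hw1 hQ.ord
              rw [Subgroup.mem_centralizer_singleton_iff, hk]
              exact (h3.zpow_right k).eq
            · rw [if_neg hs', mul_zero]
          · rw [if_neg hs, zero_mul]
        · rw [if_neg h]
    rw [Finset.sum_congr rfl fun x _ => h1 x]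
    rw [← Finset.sum_filter, Finset.sum_const, nsmul_eq_mul]
    have h2 : ((Finset.univ.filter fun x : G => x ∈ Cu u).card : ℂ) = (ℓ : ℂ) * Nat.card H := by
      have h3 : (Finset.univ.filter fun x : G => x ∈ Cu u).card = Nat.card (Cu u) := by
        rw [Nat.card_eq_fintype_card]
        exact (Fintype.card_subtype _).symm
      rw [h3, qt_card hQ]
      push_cast
      rfl
    rw [h2, sum_reg (f := fun h => starRingEnd ℂ (p h) * q h) hQ.sur (qt_pow hQ) (qt_comm hQ)]
    have h4 : ∑ h : H, (if Reg ℓ h then starRingEnd ℂ (p h) * q h else 0) =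
        ∑ h : H, q h * starRingEnd ℂ (p h) := by
      refine Finset.sum_congr rfl fun h _ => ?_
      by_cases hh : Reg ℓ h
      · rw [if_pos hh, mul_comm]
      · rw [if_neg hh, hq.sg h hh, zero_mul]
    rw [h4]
    unfold ipn
    rw [finsum_eq_sum_of_fintype]
    have h5 : (Nat.card H : ℂ) ≠ 0 := by
      exact_mod_cast Nat.card_pos.ne'
    field_simp
  · rw [finsum_irr]
    have h1 : ∀ χ : Irr G, Av ℓ π w p χ * (χ : G → ℂ) 1 = (Nat.card H : ℂ)⁻¹ *
        ∑ s : Cu u, (if Reg ℓ s then starRingEnd ℂ (p (π s)) else 0) *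
          ((χ : G → ℂ) (w * s) * (χ : G → ℂ) 1) := by
      intro χ
      rw [av_eq, mul_assoc, Finset.sum_mul]
      congr 1
      exact Finset.sum_congr rfl fun s _ => by ring
    rw [Finset.sum_congr rfl fun χ _ => h1 χ, ← Finset.mul_sum, Finset.sum_comm]
    have h2 : ∑ s : Cu u, ∑ χ : Irr G, (if Reg ℓ s then starRingEnd ℂ (p (π s)) else 0) *
          ((χ : G → ℂ) (w * s) * (χ : G → ℂ) 1) = 0 := by
      refine Finset.sum_eq_zero fun s _ => ?_
      rw [← Finset.mul_sum, col_sum]
      by_cases hs : Reg ℓ s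
      · have h3 : ∑ x : G, (if x⁻¹ * (w * (s : G))⁻¹ * x = 1 then (1 : ℂ) else 0) = 0 := by
          refine Finset.sum_eq_zero fun x _ => ?_
          rw [if_neg]
          intro h
          have h4 : w * (s : G) = 1 := by
            have : (w * (s : G))⁻¹ = x * (x⁻¹ * (w * (s : G))⁻¹ * x) * x⁻¹ := by group
            rw [h] at this
            have h5 : (w * (s : G))⁻¹ = 1 := by rw [this]; group
            exact inv_eq_one.1 h5
          apply hw1
          have h5 : x⁻¹ * (w * (s : G)) * x = (1 : G) * ((1 : Cu u) : G) := by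
            rw [h4]
            simp
          have h6 := (parts_conj hQ.ord hw (Subgroup.one_mem _) hs (by
            unfold Reg
            rw [orderOf_one]
            exact Nat.coprime_one_left ℓ) h5).1
          have h7 : w = x * (x⁻¹ * w * x) * x⁻¹ := by group
          rw [h7, h6]
          group
        rw [h3, mul_zero]
      · rw [if_neg hs, zero_mul]
    rw [h2, mul_zero]
  · intro w' hw' hw'1 hnc
    rw [gen w' hw']
    have h1 : ∑ x : G, ∑ s : Cu u, ∑ s' : Cu u, (if x⁻¹ * (w * s) * x = w' * s' then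
          (if Reg ℓ s then starRingEnd ℂ (p (π s)) else 0) * (if Reg ℓ s' then q (π s') else 0)
        else 0) = 0 := by
      refine Finset.sum_eq_zero fun x _ => Finset.sum_eq_zero fun s _ =>
        Finset.sum_eq_zero fun s' _ => ?_
      by_cases h : x⁻¹ * (w * s) * x = w' * s'
      · rw [if_pos h]
        by_cases hs : Reg ℓ s
        · by_cases hs' : Reg ℓ s'
          · exfalso
            apply hnc
            refine ⟨x⁻¹, ?_⟩
            rw [inv_inv]
            exact (parts_conj hQ.ord hw hw' hs hs' h).1.symm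
          · rw [if_neg hs', mul_zero]
        · rw [if_neg hs, zero_mul]
      · rw [if_neg h]
    rw [h1, mul_zero]

end Pool.Agent.PP.K9.H86
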