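import Pool.Agent.Helper57_K9.Stmts3

/-!
# Squad K9, part KL, row GRM: the vectors `g_i`, `h_ij`
-/

open scoped BigOperators

set_option linter.unusedSectionVars false

noncomputable section

namespace Pool.Agent.PP.K9.H86M

open Pool.Agent.PP.K9

section vec

variable {ι : Type} [Fintype ι] [DecidableEq ι] {n m : ℕ} (p : Fin n → ι) (r : Fin m → ι)

/-- the sum over `ι` is the sum over the `p k` and the `r j` -/
theorem split (hp : Function.Injective p) (hr : Function.Injective r) (hpr : ∀ k j, p k ≠ r j)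
    (hs : ∀ x, (∃ k, p k = x) ∨ ∃ j, r j = x) {R : Type} [AddCommMonoid R] (f : ι → R) :
    ∑ x, f x = ∑ k, f (p k) + ∑ j, f (r j) := by
  have hb : Function.Bijective (Sum.elim p r) := by
    constructor
    · rintro (k | j) (k' | j') h
      · rw [Sum.elim_inl, Sum.elim_inl] at h
        rw [hp h]
      · exact absurd h (hpr k j')
      · exact absurd h.symm (hpr k' j)
      · rw [Sum.elim_inr, Sum.elim_inr] at h
        rw [hr h]
    · intro x
      rcases hs x with ⟨k, hk⟩ | ⟨j, hj⟩
      · exact ⟨Sum.inl k, hk⟩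
      · exact ⟨Sum.inr j, hj⟩
  rw [← Equiv.sum_comp (Equiv.ofBijective _ hb), Fintype.sum_sum_type]
  rfl

/-- the sum of the signed unit vectors -/
def FF' (σ : Fin m → ℤ) (x : ι) : ℤ := ∑ j, if x = r j then σ j else 0

/-- the vectors `g` -/
def gg (σ : Fin m → ℤ) (c : ℤ) (w : Fin n → ℤ) (k : Fin n) (x : ι) : ℤ :=
  c * (if x = p k then 1 else 0) - w k * FF' r σ x

/-- the vectors `h` -/
def hh (w : Fin n → ℤ) (k l : Fin n) (x : ι) : ℤ :=
  w l * (if x = p k then 1 else 0) - w k * (if x = p l then 1 else 0)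

variable {p r}

theorem F_r (hr : Function.Injective r) (σ : Fin m → ℤ) (j : Fin m) : FF' r σ (r j) = σ j := by
  unfold FF'
  rw [Finset.sum_eq_single j]
  · rw [if_pos rfl]
  · intro i _ hi
    rw [if_neg]
    intro h
    exact hi (hr h).symm
  · intro h
    exact absurd (Finset.mem_univ _) h

theorem F_p (hpr : ∀ k j, p k ≠ r j) (σ : Fin m → ℤ) (k : Fin n) : FF' r σ (p k) = 0 := by
  unfold FF'
  exact Finset.sum_eq_zero fun j _ => if_neg (hpr k j)

theorem g_p (hp : Function.Injective p) (hpr : ∀ k j, p k ≠ r j) (σ : Fin m → ℤ) (c : ℤ)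
    (w : Fin n → ℤ) (k l : Fin n) : gg p r σ c w k (p l) = if l = k then c else 0 := by
  unfold gg
  rw [F_p hpr, mul_zero, sub_zero]
  by_cases h : l = k
  · rw [if_pos h, if_pos (by rw [h]), mul_one]
  · rw [if_neg h, if_neg (fun h' => h (hp h')), mul_zero]

theorem g_r (hr : Function.Injective r) (hpr : ∀ k j, p k ≠ r j) (σ : Fin m → ℤ) (c : ℤ)
    (w : Fin n → ℤ) (k : Fin n) (j : Fin m) : gg p r σ c w k (r j) = -(w k * σ j) := by
  unfold gg
  rw [F_r hr, if_neg (Ne.symm (hpr k j)), mul_zero, zero_sub]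

theorem h_p (hp : Function.Injective p) (w : Fin n → ℤ) (k l q : Fin n) :
    hh p w k l (p q) = (if q = k then w l else 0) - (if q = l then w k else 0) := by
  unfold hh
  congr 1
  · by_cases h : q = k
    · rw [if_pos h, if_pos (by rw [h]), mul_one]
    · rw [if_neg h, if_neg (fun h' => h (hp h')), mul_zero]
  · by_cases h : q = l
    · rw [if_pos h, if_pos (by rw [h]), mul_one]
    · rw [if_neg h, if_neg (fun h' => h (hp h')), mul_zero]

theorem h_r (hpr : ∀ k j, p k ≠ r j) (w : Fin n → ℤ) (k l : Fin n) (j : Fin m) :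
    hh p w k l (r j) = 0 := by
  unfold hh
  rw [if_neg (Ne.symm (hpr k j)), if_neg (Ne.symm (hpr l j)), mul_zero, mul_zero, sub_zero]

end vec

theorem grm (gra : GraStmt) (grb : GrbStmt) : GrmStmt := by
  intro ℓ hℓ ι _ ζ hζ a deg δ hdeg hδ h1 h2
  classical
  obtain ⟨m, e, b, cl, hm, hme, hab, hgram, hbne, hbdeg⟩ := gra ℓ ι ζ hζ a deg δ hδ h1 h2
  obtain ⟨r, σ, t, W, hr, hσ, hbW, hWr, hc⟩ := grb m e hm ι b hgram
  obtain ⟨n, φ⟩ : ∃ n : ℕ, Nonempty (Fin n ≃ {x : ι // ∀ j, x ≠ r j}) :=
    ⟨_, ⟨(Fintype.equivFin _).symm⟩⟩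
  obtain ⟨φ⟩ := φ
  obtain ⟨p, hpdef⟩ : ∃ p : Fin n → ι, p = fun k => ((φ k : {x : ι // ∀ j, x ≠ r j}) : ι) :=
    ⟨_, rfl⟩
  have hp : Function.Injective p := by
    rw [hpdef]
    intro k l h
    exact φ.injective (Subtype.ext h)
  have hpr : ∀ k j, p k ≠ r j := by
    rw [hpdef]
    exact fun k j => (φ k).2 j
  have hs : ∀ x, (∃ k, p k = x) ∨ ∃ j, r j = x := by
    intro x
    by_cases h : ∀ j, x ≠ r j
    · left
      refine ⟨φ.symm ⟨x, h⟩, ?_⟩
      rw [hpdef]
      simp
    · right
      push Not at h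
      obtain ⟨j, hj⟩ := h
      exact ⟨j, hj.symm⟩
  have sp : ∀ {R : Type} [AddCommMonoid R] (f : ι → R),
      ∑ x, f x = ∑ k, f (p k) + ∑ j, f (r j) := fun f => split p r hp hr hpr hs f
  obtain ⟨c, hcdef⟩ : ∃ c : ℤ, c = (m : ℤ) * t + 1 := ⟨_, rfl⟩
  rw [← hcdef] at hc
  obtain ⟨w, hwdef⟩ : ∃ w : Fin n → ℤ, w = fun k => W (p k) := ⟨_, rfl⟩
  have hbp : ∀ j k, b j (p k) = w k := by
    intro j k
    rw [hbW, if_neg (hpr k j), add_zero, hwdef]
  have hbr : ∀ j i, b j (r i) = t * σ i + if i = j then σ j else 0 := by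
    intro j i
    rw [hbW, hWr]
    congr 1
    by_cases h : i = j
    · rw [if_pos h, if_pos (by rw [h])]
    · rw [if_neg h, if_neg (fun h' => h (hr h'))]
  have hσs : ∑ j, σ j * σ j = (m : ℤ) := by
    rw [Finset.sum_congr rfl fun j _ => hσ j]
    simp
  have hσj : ∀ j, ∑ i, σ i * (if i = j then σ j else 0) = 1 := by
    intro j
    rw [Finset.sum_eq_single j]
    · rw [if_pos rfl, hσ]
    · intro i _ hi
      rw [if_neg hi, mul_zero]
    · intro h
      exact absurd (Finset.mem_univ _) h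
  -- orthogonality to the `b j`
  have hgb : ∀ k j, ∑ x, gg p r σ c w k x * b j x = 0 := by
    intro k j
    rw [sp]
    have e1 : ∑ l, gg p r σ c w k (p l) * b j (p l) = c * w k := by
      rw [Finset.sum_eq_single k]
      · rw [g_p hp hpr, if_pos rfl, hbp]
      · intro l _ hl
        rw [g_p hp hpr, if_neg hl, zero_mul]
      · intro h
        exact absurd (Finset.mem_univ _) h
    have e2 : ∑ i, gg p r σ c w k (r i) * b j (r i) = -(w k * c) := by
      have e3 : ∀ i, gg p r σ c w k (r i) * b j (r i) =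
          -(w k) * (t * (σ i * σ i) + σ i * (if i = j then σ j else 0)) := by
        intro i
        rw [g_r hr hpr, hbr]
        ring
      rw [Finset.sum_congr rfl fun i _ => e3 i, ← Finset.mul_sum, Finset.sum_add_distrib,
        ← Finset.mul_sum, hσs, hσj, hcdef]
      ring
    rw [e1, e2]
    ring
  have hhb : ∀ k l j, ∑ x, hh p w k l x * b j x = 0 := by
    intro k l j
    rw [sp]
    have e1 : ∑ q, hh p w k l (p q) * b j (p q) = w l * w k - w k * w l := by
      have e3 : ∀ q, hh p w k l (p q) * b j (p q) =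
          (if q = k then w l * w k else 0) - (if q = l then w k * w l else 0) := by
        intro q
        rw [h_p hp, hbp, sub_mul]
        congr 1
        · by_cases h : q = k
          · rw [if_pos h, if_pos h, h]
          · rw [if_neg h, if_neg h, zero_mul]
        · by_cases h : q = l
          · rw [if_pos h, if_pos h, h]
          · rw [if_neg h, if_neg h, zero_mul]
      rw [Finset.sum_congr rfl fun q _ => e3 q, Finset.sum_sub_distrib, Finset.sum_ite_eq',
        Finset.sum_ite_eq', if_pos (Finset.mem_univ _), if_pos (Finset.mem_univ _)]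
    have e2 : ∑ i, hh p w k l (r i) * b j (r i) = 0 :=
      Finset.sum_eq_zero fun i _ => by rw [h_r hpr, zero_mul]
    rw [e1, e2]
    ring
  -- orthogonality to the `δ`
  have hort : ∀ v : ι → ℤ, (∀ j, ∑ x, v x * b j x = 0) → ∀ j ∈ Finset.Ico 1 ℓ,
      ∑ x, (v x : ℂ) * δ j x = 0 := by
    intro v hv j hj
    have hℓ1 : 1 ≤ ℓ := hℓ.out.one_lt.le
    have hζ0 : ∑ s ∈ Finset.range ℓ, ζ ^ (s * j) = 0 := by
      have h3 : ∀ s, ζ ^ (s * j) = (ζ ^ j) ^ s := fun s => by rw [mul_comm, pow_mul]
      rw [Finset.sum_congr rfl fun s _ => h3 s]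
      have h4 := geom_sum_mul (ζ ^ j) ℓ
      rw [← pow_mul, mul_comm j ℓ, pow_mul, hζ.pow_eq_one, one_pow, sub_self] at h4
      rcases mul_eq_zero.1 h4 with h5 | h5
      · exact h5
      · exfalso
        have h6 := (hζ.pow_eq_one_iff_dvd j).1 (sub_eq_zero.1 h5)
        rw [Finset.mem_Ico] at hj
        exact absurd (Nat.le_of_dvd hj.1 h6) (not_le.2 hj.2)
    have hδ' : ∀ x, δ j x = ∑ s ∈ Finset.Ico 1 ℓ, (b (cl s) x : ℂ) * ζ ^ (s * j) := by
      intro x
      rw [hδ]
      have h3 : ∑ s ∈ Finset.range ℓ, (a x s : ℂ) * ζ ^ (s * j) =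
          ∑ s ∈ Finset.range ℓ, ((a x s : ℂ) - (a x 0 : ℂ)) * ζ ^ (s * j) := by
        simp_rw [sub_mul]
        rw [Finset.sum_sub_distrib, ← Finset.mul_sum, hζ0, mul_zero, sub_zero]
      rw [h3, Finset.range_eq_Ico, Finset.sum_eq_sum_Ico_succ_bot hℓ1, sub_self, zero_mul,
        zero_add, zero_add]
      refine Finset.sum_congr rfl fun s hs' => ?_
      rw [← hab s hs' x]
      push_cast
      rfl
    calc ∑ x, (v x : ℂ) * δ j x
        = ∑ x, ∑ s ∈ Finset.Ico 1 ℓ, ζ ^ (s * j) * ((v x : ℂ) * (b (cl s) x : ℂ)) := by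
          refine Finset.sum_congr rfl fun x _ => ?_
          rw [hδ', Finset.mul_sum]
          exact Finset.sum_congr rfl fun s _ => by ring
      _ = ∑ s ∈ Finset.Ico 1 ℓ, ζ ^ (s * j) * ∑ x, ((v x : ℂ) * (b (cl s) x : ℂ)) := by
          rw [Finset.sum_comm]
          exact Finset.sum_congr rfl fun s _ => by rw [Finset.mul_sum]
      _ = 0 := by
          refine Finset.sum_eq_zero fun s _ => ?_
          have h3 := hv (cl s)
          have h4 : ∑ x, ((v x : ℂ) * (b (cl s) x : ℂ)) = 0 := by exact_mod_cast h3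
          rw [h4, mul_zero]
  -- the degrees
  have hdegsum : ∀ j, ∑ k, w k * (deg (p k) : ℤ) + t * ∑ i, σ i * (deg (r i) : ℤ) +
      σ j * (deg (r j) : ℤ) = 0 := by
    intro j
    have h3 := hbdeg j
    rw [sp] at h3
    have e1 : ∀ k, b j (p k) * (deg (p k) : ℤ) = w k * (deg (p k) : ℤ) := fun k => by rw [hbp]
    have e2 : ∀ i, b j (r i) * (deg (r i) : ℤ) = t * (σ i * (deg (r i) : ℤ)) +
        (if i = j then σ j * (deg (r j) : ℤ) else 0) := by
      intro i
      rw [hbr]
      by_cases h : i = j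
      · rw [if_pos h, if_pos h, h]
        ring
      · rw [if_neg h, if_neg h]
        ring
    rw [Finset.sum_congr rfl fun k _ => e1 k, Finset.sum_congr rfl fun i _ => e2 i,
      Finset.sum_add_distrib, ← Finset.mul_sum, Finset.sum_ite_eq', if_pos (Finset.mem_univ _)]
      at h3
    linarith
  obtain ⟨j0⟩ : Nonempty (Fin m) := ⟨⟨0, hm⟩⟩
  obtain ⟨y, hy⟩ : ∃ y : ℤ, y = σ j0 * (deg (r j0) : ℤ) := ⟨_, rfl⟩
  have hyj : ∀ j, σ j * (deg (r j) : ℤ) = y := by
    intro j
    have h3 := hdegsum j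
    have h4 := hdegsum j0
    rw [hy]
    linarith
  have hwy : ∑ k, w k * (deg (p k) : ℤ) = -(c * y) := by
    have h3 := hdegsum j0
    rw [Finset.sum_congr rfl fun i _ => hyj i, Finset.sum_const, Finset.card_univ,
      Fintype.card_fin, nsmul_eq_mul, hyj] at h3
    rw [hcdef]
    linarith
  have hdr : ∀ j, (deg (r j) : ℤ) = σ j * y := by
    intro j
    rw [← hyj j, ← mul_assoc, hσ, one_mul]
  have hn : 0 < n := by
    by_contra h
    have h0 : n = 0 := by omega
    subst h0
    rw [Finset.univ_eq_empty, Finset.sum_empty] at hwy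
    have h3 : c * y = 0 := by linarith
    rcases mul_eq_zero.1 h3 with h4 | h4
    · exact hc h4
    · have h5 := hdr j0
      rw [h4, mul_zero] at h5
      exact hdeg (r j0) (by exact_mod_cast h5)
  have hwne : ∀ k, w k ≠ 0 := by
    intro k
    obtain ⟨j, hj⟩ := hbne (p k)
    rwa [hbp] at hj
  -- the norms
  obtain ⟨N, hN⟩ : ∃ N : ℤ, N = ∑ k, w k * w k := ⟨_, rfl⟩
  have hnorm : c * c + m * N = ℓ := by
    have h3 := hgram j0 j0
    rw [if_pos rfl, sp] at h3
    have e1 : ∀ k, b j0 (p k) * b j0 (p k) = w k * w k := fun k => by rw [hbp]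
    have e2 : ∀ i, b j0 (r i) * b j0 (r i) = t * t * (σ i * σ i) +
        (if i = j0 then 2 * t * (σ j0 * σ j0) + σ j0 * σ j0 else 0) := by
      intro i
      rw [hbr]
      by_cases h : i = j0
      · rw [if_pos h, if_pos h, h]
        ring
      · rw [if_neg h, if_neg h]
        ring
    rw [Finset.sum_congr rfl fun k _ => e1 k, Finset.sum_congr rfl fun i _ => e2 i,
      Finset.sum_add_distrib, ← Finset.mul_sum, Finset.sum_ite_eq', if_pos (Finset.mem_univ _),
      ← hN, hσs, hσ] at h3
    have h4 : (m : ℤ) * e = ℓ - 1 := by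
      have h5 : ((m * e : ℕ) : ℤ) = ((ℓ - 1 : ℕ) : ℤ) := by rw [hme]
      rw [Nat.cast_sub hℓ.out.one_lt.le] at h5
      push_cast at h5
      exact h5
    have h5 : N = e - m * (t * t) - 2 * t := by linarith
    rw [hcdef, h5]
    linear_combination h4
  have hg2 : ∀ k, ∑ x, gg p r σ c w k x * gg p r σ c w k x = c * c + m * (w k * w k) := by
    intro k
    rw [sp]
    have e1 : ∑ l, gg p r σ c w k (p l) * gg p r σ c w k (p l) = c * c := by
      rw [Finset.sum_eq_single k]
      · rw [g_p hp hpr, if_pos rfl]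
      · intro l _ hl
        rw [g_p hp hpr, if_neg hl, zero_mul]
      · intro h
        exact absurd (Finset.mem_univ _) h
    have e2 : ∑ i, gg p r σ c w k (r i) * gg p r σ c w k (r i) = m * (w k * w k) := by
      have e3 : ∀ i, gg p r σ c w k (r i) * gg p r σ c w k (r i) =
          (w k * w k) * (σ i * σ i) := by
        intro i
        rw [g_r hr hpr]
        ring
      rw [Finset.sum_congr rfl fun i _ => e3 i, ← Finset.mul_sum, hσs]
      ring
    rw [e1, e2]
  have hh2 : ∀ k l, ∑ x, hh p w k l x * hh p w k l x =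
      w l * w l + w k * w k - (if k = l then 2 * (w k * w k) else 0) := by
    intro k l
    rw [sp]
    have e1 : ∑ q, hh p w k l (p q) * hh p w k l (p q) =
        w l * w l + w k * w k - (if k = l then 2 * (w k * w k) else 0) := by
      have e3 : ∀ q, hh p w k l (p q) * hh p w k l (p q) =
          (if q = k then w l * w l else 0) + (if q = l then w k * w k else 0) -
            (if q = k then (if k = l then 2 * (w k * w k) else 0) else 0) := by
        intro q
        rw [h_p hp]
        by_cases h : q = k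
        · by_cases h' : k = l
          · have h'' : q = l := h.trans h'
            rw [if_pos h, if_pos h'', if_pos h, if_pos h'', if_pos h, if_pos h', ← h']
            ring
          · have h'' : ¬ q = l := fun h3 => h' (h.symm.trans h3)
            rw [if_pos h, if_neg h'', if_pos h, if_neg h'', if_pos h, if_neg h']
            ring
        · rw [if_neg h, if_neg h, if_neg h]
          by_cases h' : q = l
          · rw [if_pos h', if_pos h']
            ring
          · rw [if_neg h', if_neg h']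
            ring
      rw [Finset.sum_congr rfl fun q _ => e3 q, Finset.sum_sub_distrib, Finset.sum_add_distrib,
        Finset.sum_ite_eq', Finset.sum_ite_eq', Finset.sum_ite_eq',
        if_pos (Finset.mem_univ _), if_pos (Finset.mem_univ _), if_pos (Finset.mem_univ _)]
    have e2 : ∑ i, hh p w k l (r i) * hh p w k l (r i) = 0 :=
      Finset.sum_eq_zero fun i _ => by rw [h_r hpr, zero_mul]
    rw [e1, e2, add_zero]
  refine ⟨n, m, c, w, gg p r σ c w, hh p w, hn, hm, hc, hwne, ?_, ?_, ?_, ?_⟩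
  · intro k l x
    unfold hh gg
    ring
  · intro j hj
    exact ⟨fun k => hort _ (hgb k) j hj, fun k l => hort _ (hhb k l) j hj⟩
  · rw [Finset.sum_congr rfl fun k _ => hg2 k]
    have e1 : ∀ k, ∑ l, ∑ x, hh p w k l x * hh p w k l x =
        N + n * (w k * w k) - 2 * (w k * w k) := by
      intro k
      rw [Finset.sum_congr rfl fun l _ => hh2 k l, Finset.sum_sub_distrib,
        Finset.sum_add_distrib, ← hN, Finset.sum_const, Finset.card_univ, Fintype.card_fin,
        nsmul_eq_mul, Finset.sum_ite_eq, if_pos (Finset.mem_univ _)]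
    have e2 : ∀ q : ℤ, ∑ k, q * (w k * w k) = q * N := fun q => by rw [← Finset.mul_sum, ← hN]
    rw [Finset.sum_congr rfl fun k _ => e1 k, Finset.sum_sub_distrib, Finset.sum_add_distrib,
      Finset.sum_add_distrib, e2, e2, e2,
      Finset.sum_const, Finset.sum_const, Finset.card_univ, Fintype.card_fin, nsmul_eq_mul,
      nsmul_eq_mul]
    linear_combination 2 * (n : ℤ) * hnorm
  · refine ⟨fun k => (deg (p k) : ℂ) / c, fun x => ?_⟩
    have hcC : (c : ℂ) ≠ 0 := by exact_mod_cast hc
    rcases hs x with ⟨l, rfl⟩ | ⟨j, rfl⟩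
    · rw [Finset.sum_eq_single l]
      · rw [g_p hp hpr, if_pos rfl]
        field_simp
      · intro k _ hk
        rw [g_p hp hpr, if_neg (Ne.symm hk), Int.cast_zero, mul_zero]
      · intro h
        exact absurd (Finset.mem_univ _) h
    · have e1 : ∀ k, (deg (p k) : ℂ) / c * ((gg p r σ c w k (r j) : ℤ) : ℂ) =
          -(σ j : ℂ) / c * ((w k * (deg (p k) : ℤ) : ℤ) : ℂ) := by
        intro k
        rw [g_r hr hpr]
        push_cast
        ring
      rw [Finset.sum_congr rfl fun k _ => e1 k, ← Finset.mul_sum, ← Int.cast_sum, hwy]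
      have e2 : (deg (r j) : ℂ) = (σ j : ℂ) * y := by exact_mod_cast hdr j
      rw [e2]
      push_cast
      field_simp

end Pool.Agent.PP.K9.H86M
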